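import Mathlib
import Pool.Agent.H826R2.Wein.RelTop

/-! Critical points of integral contact Hamiltonians: two ends relative to an arbitrary subgroup
which acts trivially on the Hamiltonians. -/

open scoped Topology ContDiff Manifold
open Set Metric Bundle Pool.Agent.Helper186

noncomputable section

namespace Pool.Agent.N490.WE

open Pool.Agent.H826R2.Wein

set_option linter.unusedSectionVars false

universe u

variable {E : Type u} [NormedAddCommGroup E] [NormedSpace ℝ E] [FiniteDimensional ℝ E]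
  {P : Type*} [TopologicalSpace P] [ChartedSpace E P] [IsManifold 𝓘(ℝ, E) ∞ P]
  {β : (x : P) → TangentSpace 𝓘(ℝ, E) x →L[ℝ] ℝ} {m : ℕ}

lemma SmallRel.union {Γ : Type*} [Group Γ] [MulAction Γ P] {K : Subgroup Γ} {S S' : Set P}
    (h : SmallRel K S) (h' : SmallRel K S') : SmallRel K (S ∪ S') := by
  obtain ⟨S₀, hS₀, hC⟩ := h
  obtain ⟨S₀', hS₀', hC'⟩ := h'
  refine ⟨S₀ ∪ S₀', hS₀.union hS₀', ?_⟩
  rintro x (hx | hx)
  · obtain ⟨κ, hκ, h⟩ := hC x hx
    exact ⟨κ, hκ, Or.inl h⟩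
  · obtain ⟨κ, hκ, h⟩ := hC' x hx
    exact ⟨κ, hκ, Or.inr h⟩

variable {n : ℕ} {ι : Imm (E := E) P n} {Γ : Type*} [Group Γ] [MulAction Γ P]

/-- If `f` is larger than its translate in absolute value outside a small set, then `f` is not
proper. -/
lemma no_domination_sub (𝒟 : Deck ι Γ) {K : Subgroup Γ}
    {f : P → ℝ} (hf : Continuous f)
    (hfK : ∀ κ ∈ K, ∀ (γ : Γ) (x : P), f ((γ * κ * γ⁻¹) • x) = f x)
    (hprop : ∀ c : ℝ, ∃ S, SmallRel K S ∧ ∀ x, x ∉ S → c < |f x|)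
    (hnc : ∀ S : Set P, SmallRel K S → ∃ x, x ∉ S) (g : Γ)
    {S : Set P} (hS : SmallRel K S) (hdom : ∀ x, x ∉ S → |f (g • x)| < |f x|) : False := by
  have hgc : Continuous (fun x : P => g • x) := (𝒟.smooth g).continuous
  obtain ⟨b, hb⟩ : ∃ b : ℝ, ∀ z ∈ S, |f (g • z)| < b := by
    obtain ⟨S₀, hS₀, h⟩ := hS
    obtain ⟨b, hb⟩ := (hS₀.image (hf.comp hgc).abs).bddAbove
    refine ⟨b + 1, fun z hz => ?_⟩
    obtain ⟨κ, hκ, hκz⟩ := h z hz
    have h1 := hb (mem_image_of_mem _ hκz)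
    simp only [Function.comp] at h1
    have h2 : f (g • κ • z) = f (g • z) := by
      rw [← hfK κ hκ g (g • z), mul_smul, mul_smul, inv_smul_smul]
    rw [h2] at h1
    linarith
  obtain ⟨K1, hK1, h1⟩ := hprop b
  obtain ⟨y, hy⟩ := hnc _ (SmallRel.union hK1 hS)
  have hyb : b < |f y| := h1 y (fun h => hy (Or.inl h))
  have hyK : y ∉ S := fun h => hy (Or.inr h)
  have hdec : ∀ i : ℕ, |f (g ^ (i + 1) • y)| < |f y| := by
    intro i
    induction i with
    | zero => simpa using hdom y hyK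
    | succ i ih =>
      have e : g ^ (i + 1 + 1) • y = g • (g ^ (i + 1) • y) := by
        rw [smul_smul, ← pow_succ']
      rw [e]
      by_cases hi : g ^ (i + 1) • y ∈ S
      · exact (hb _ hi).trans hyb
      · exact (hdom _ hi).trans ih
  obtain ⟨K2, ⟨S₀, hS₀, hK2⟩, h2⟩ := hprop |f y|
  have hmem : ∀ i : ℕ, g ^ i • y ∈ K2 := by
    intro i
    by_contra hi
    have h3 := h2 _ hi
    cases i with
    | zero => simp at h3
    | succ i => exact lt_irrefl _ (h3.trans (hdec i))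
  choose κ hκ hκm using fun i : ℕ => hK2 _ (hmem i)
  have hfin := 𝒟.fin y S₀ hS₀
  have hmap : MapsTo (fun i : ℕ => κ i • g ^ i • y) univ {z ∈ S₀ | ∃ γ : Γ, γ • y = z} := by
    intro i _
    refine ⟨hκm i, κ i * g ^ i, ?_⟩
    rw [mul_smul]
  obtain ⟨i, -, j, -, hij, he⟩ := Set.infinite_univ.exists_ne_map_eq_of_mapsTo hmap hfin
  have key : ∀ i j : ℕ, i < j → κ i • g ^ i • y = κ j • g ^ j • y → False := by
    intro i j hlt he
    obtain ⟨d, rfl⟩ := Nat.exists_eq_add_of_lt hlt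
    have e1 : g ^ (i + d + 1) • y = g ^ i • (g ^ (d + 1) • y) := by
      rw [smul_smul, ← pow_add]; rfl
    rw [e1] at he
    have e2 : g ^ (d + 1) • y =
        ((g ^ i)⁻¹ * ((κ (i + d + 1))⁻¹ * κ i) * ((g ^ i)⁻¹)⁻¹) • y := by
      rw [inv_inv, mul_smul, mul_smul, mul_smul, he, inv_smul_smul, inv_smul_smul]
    have e4 := hfK _ (K.mul_mem (K.inv_mem (hκ (i + d + 1))) (hκ i)) ((g ^ i)⁻¹) y
    rw [← e2] at e4
    have := hdec d
    rw [e4] at this
    exact lt_irrefl _ this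
  rcases lt_or_gt_of_ne hij with h | h
  · exact key i j h he
  · exact key j i h he.symm

variable (A : TAct β m)

/-- Two integral Hamiltonians going to infinity in the same direction, with a difference doing the
same. -/
lemma no_same_direction_sub (hc : IsContact β) (𝒟 : Deck ι Γ) (hN : A.Norm Γ) {C U V : Set P}
    {K : Subgroup Γ} (hK : K ≤ A.ker Γ)
    (hE : Rel.TwoEnds (SmallRel K) C U V) {k₀ k1 k2 : Fin m → ℤ} {γ1 γ2 : Γ}
    (h1 : ∀ x, A.H (TAct.rv k1) (γ1 • x) = A.H (TAct.rv k₀) x)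
    (h2 : ∀ x, A.H (TAct.rv k2) (γ2 • x) = A.H (TAct.rv k₀) x)
    (hU1 : ∀ c, Rel.Fpush.Up (SmallRel K) (A.H (TAct.rv k1)) U V c)
    (hU2 : ∀ c, Rel.Fpush.Up (SmallRel K) (A.H (TAct.rv k2)) U V c)
    (hU3 : ∀ c, Rel.Fpush.Up (SmallRel K) (A.H (TAct.rv (k1 - k2))) U V c) : False := by
  have hcov : ∀ x : P, x ∉ C → x ∈ U ∨ x ∈ V := by
    intro x hx
    have : x ∈ U ∪ V := by rw [hE.union]; exact hx
    exact this
  have hnc : ∀ K' : Set P, SmallRel K K' → ∃ x, x ∉ K' := by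
    intro K' hK'
    obtain ⟨x, -, hx⟩ := not_subset.1 (hE.ncU K' hK')
    exact ⟨x, hx⟩
  obtain ⟨K1, hK1, a1, b1⟩ := hU1 0
  obtain ⟨K2, hK2, a2, b2⟩ := hU2 0
  obtain ⟨K3, hK3, a3, b3⟩ := hU3 0
  refine no_domination_sub 𝒟 (K := K) (f := A.H (TAct.rv k1))
    (A.smooth_H hc.smooth _).continuous
    (fun κ hκ γ x => A.conj_mem_ker 𝒟 hN (hK hκ) γ k1 x) ?_ hnc
    (γ1 * γ2⁻¹) (SmallRel.union (SmallRel.union (SmallRel.union hK1 hK2) hK3) hE.compact) ?_
  · intro c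
    obtain ⟨K', hK', a, b⟩ := hU1 c
    refine ⟨K' ∪ C, SmallRel.union hK' hE.compact, fun x hx => ?_⟩
    rcases hcov x (fun hh => hx (Or.inr hh)) with hxU | hxV
    · exact (a x hxU (fun hh => hx (Or.inl hh))).trans_le (le_abs_self _)
    · have := b x hxV (fun hh => hx (Or.inl hh))
      have h3 := neg_le_abs (A.H (TAct.rv k1) x)
      linarith
  · intro x hx
    simp only [mem_union, not_or] at hx
    have e : A.H (TAct.rv k1) ((γ1 * γ2⁻¹) • x) = A.H (TAct.rv k2) x := by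
      rw [mul_smul, h1, ← h2, smul_inv_smul]
    rw [e]
    have e3 : A.H (TAct.rv (k1 - k2)) x = A.H (TAct.rv k1) x - A.H (TAct.rv k2) x := by
      rw [TAct.rv_sub, A.H_sub]
    rcases hcov x hx.2 with hxU | hxV
    · have c1 := a1 x hxU hx.1.1.1
      have c2 := a2 x hxU hx.1.1.2
      have c3 := a3 x hxU hx.1.2
      rw [e3] at c3
      rw [abs_of_pos c1, abs_of_pos c2]
      linarith
    · have c1 := b1 x hxV hx.1.1.1
      have c2 := b2 x hxV hx.1.1.2
      have c3 := b3 x hxV hx.1.2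
      rw [e3] at c3
      rw [abs_of_neg (by linarith), abs_of_neg (by linarith)]
      linarith

/-- **Critical points, two ends relative to a subgroup acting trivially on the Hamiltonians.** -/
theorem exists_crit_two_ends_sub [T2Space P] [SigmaCompactSpace P] [PathConnectedSpace P]
    (hc : IsContact β) {R : (x : P) → TangentSpace 𝓘(ℝ, E) x}
    (hR : IsReeb β R) (𝒟 : Deck ι Γ) (hN : A.Norm Γ) {K : Subgroup Γ} (hK : K ≤ A.ker Γ)
    {C U V : Set P}
    (hE : Rel.TwoEnds (SmallRel K) C U V) (hm : 0 < m) :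
    ∃ k : Fin m → ℤ, k ≠ 0 ∧ ∃ x, dForm 𝓘(ℝ, E) (A.H (TAct.rv k)) x = 0 := by
  by_contra hno
  have hno' := hno
  push Not at hno
  have hps := fun k hk c => A.palaisSmale hc hR 𝒟 hN hno k hk c
  have hd : ∀ k : Fin m → ℤ, k ≠ 0 →
      (∀ c, Rel.Fpush.Up (SmallRel K) (A.H (TAct.rv k)) U V c) ∨
      (∀ c, Rel.Fpush.Up (SmallRel K) (A.H (TAct.rv k)) V U c) := by
    intro k hk
    obtain ⟨F⟩ := 𝒟.exists_push_rel (A.smooth_H hc.smooth (TAct.rv k)) (hps k hk) K
      (fun κ hκ x => hK hκ k x)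
    exact F.dich (A.smooth_H hc.smooth _).continuous hE
  -- the orbit of a nonzero vector
  set k₀ : Fin m → ℤ := fun _ => 1 with hk₀
  have hk₀0 : k₀ ≠ 0 := by
    intro h
    have := congrFun h ⟨0, hm⟩
    simp [hk₀] at this
  have ho : ∀ γ : Γ, ∃ k : Fin m → ℤ, ∀ x, A.H (TAct.rv k) (γ • x) = A.H (TAct.rv k₀) x := by
    intro γ
    obtain ⟨B, hB⟩ := A.H_equiv 𝒟 hN γ
    exact ⟨B k₀, fun x => hB k₀ x⟩
  choose o ho using ho
  have hne : Nonempty P := by
    have h : ¬ U ⊆ (∅ : Set P) := hE.ncU ∅ ⟨∅, isCompact_empty, fun x hx => hx.elim⟩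
    obtain ⟨x, -, -⟩ := not_subset.1 h
    exact ⟨x⟩
  have ho0 : ∀ γ, o γ ≠ 0 := by
    intro γ h0
    obtain ⟨x⟩ := hne
    have hcrit : dForm 𝓘(ℝ, E) (A.H (TAct.rv k₀)) x = 0 := by
      apply dForm_eq_zero_of_eventually (a := 0)
      refine Filter.Eventually.of_forall fun y => ?_
      rw [← ho γ y, h0]
      have e1 : (TAct.rv (0 : Fin m → ℤ) : Fin m → ℝ) = (0:ℝ) • (0 : Fin m → ℝ) := by
        ext i; simp [TAct.rv]
      rw [e1, A.H_smul, zero_mul]
    exact hno k₀ hk₀0 x hcrit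
  rcases Set.finite_or_infinite (range o) with hfin | hinf
  · exact hno' (A.exists_crit_of_finite hc hR 𝒟 hN hk₀0 hfin (fun γ => ⟨o γ, ⟨γ, rfl⟩, ho γ⟩))
  · obtain ⟨_, ⟨γ1, rfl⟩, _, ⟨γ2, rfl⟩, hne, heq⟩ := hinf.exists_ne_map_eq_of_mapsTo
      (f := fun k => ∀ c, Rel.Fpush.Up (SmallRel K) (A.H (TAct.rv k)) U V c)
      (t := (univ : Set Prop)) (mapsTo_univ _ _) finite_univ
    have hsub : ∀ k l : Fin m → ℤ, k ≠ l → k - l ≠ 0 := fun k l h h0 => h (sub_eq_zero.1 h0)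
    have hflip : ∀ (k l : Fin m → ℤ) (U' V' : Set P) (c : ℝ),
        Rel.Fpush.Up (SmallRel K) (A.H (TAct.rv (k - l))) V' U' c →
        Rel.Fpush.Up (SmallRel K) (A.H (TAct.rv (l - k))) U' V' c := by
      rintro k l U' V' c ⟨K', hK', a, b⟩
      have e : ∀ x, A.H (TAct.rv (l - k)) x = - A.H (TAct.rv (k - l)) x := by
        intro x
        rw [TAct.rv_sub, TAct.rv_sub, A.H_sub, A.H_sub]; ring
      refine ⟨K', hK', fun x hx hxK => ?_, fun x hx hxK => ?_⟩
      · rw [e]; have := b x hx hxK; linarith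
      · rw [e]; have := a x hx hxK; linarith
    by_cases h1 : ∀ c, Rel.Fpush.Up (SmallRel K) (A.H (TAct.rv (o γ1))) U V c
    · have h2 : ∀ c, Rel.Fpush.Up (SmallRel K) (A.H (TAct.rv (o γ2))) U V c := by
        have := heq ▸ h1
        exact this
      rcases hd _ (hsub _ _ hne) with h3 | h3
      · exact no_same_direction_sub A hc 𝒟 hN hK hE (ho γ1) (ho γ2) h1 h2 h3
      · exact no_same_direction_sub A hc 𝒟 hN hK hE (ho γ2) (ho γ1) h2 h1
          (fun c => hflip _ _ _ _ c (h3 c))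
    · have h2 : ¬ ∀ c, Rel.Fpush.Up (SmallRel K) (A.H (TAct.rv (o γ2))) U V c := by
        intro h
        apply h1
        have := heq.symm ▸ h
        exact this
      have h1' := (hd _ (ho0 γ1)).resolve_left h1
      have h2' := (hd _ (ho0 γ2)).resolve_left h2
      rcases hd _ (hsub _ _ hne) with h3 | h3
      · exact no_same_direction_sub A hc 𝒟 hN hK hE.symm (ho γ2) (ho γ1) h2' h1'
          (fun c => hflip _ _ _ _ c (h3 c))
      · exact no_same_direction_sub A hc 𝒟 hN hK hE.symm (ho γ1) (ho γ2) h1' h2' h3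

end Pool.Agent.N490.WE
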