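import Mathlib
import Pool.Agent.H826R2.Wein.Main
import Pool.Agent.N490.WE.Sub

/-! Pairs of groups with at least two ends give covering spaces with at least two ends. -/

open scoped Topology ContDiff Manifold
open Set Metric Bundle Pool.Agent.Helper186

noncomputable section

namespace Pool.Agent.N490.WE

open Pool.Agent.H826R2.Wein

set_option linter.unusedSectionVars false

section grp

variable {Γ : Type*} [Group Γ]

/-- The set `S` of elements of the group is finite up to left multiplication by elements of `K`. -/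
def FiniteUpTo (K : Subgroup Γ) (S : Set Γ) : Prop :=
  ∃ F : Set Γ, F.Finite ∧ ∀ γ ∈ S, ∃ κ ∈ K, κ * γ ∈ F

/-- The pair `(Γ, K)` has at least two ends: there is a set `S` of elements of `Γ` which is, like its
complement, infinite up to left multiplication by elements of `K`, and which is almost invariant:
for every `g` the elements `γ` of `S` with `γ g ∉ S` are finite in number up to left multiplication
by elements of `K`. -/
def TwoEndedPair (K : Subgroup Γ) : Prop :=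
  ∃ S : Set Γ, ¬ FiniteUpTo K S ∧ ¬ FiniteUpTo K Sᶜ ∧
    ∀ g : Γ, FiniteUpTo K {γ | γ ∈ S ∧ γ * g ∉ S}

lemma FiniteUpTo.biUnion {K : Subgroup Γ} {G : Set Γ} (hG : G.Finite) {T : Γ → Set Γ}
    (h : ∀ g ∈ G, FiniteUpTo K (T g)) : FiniteUpTo K (⋃ g ∈ G, T g) := by
  have h' : ∀ g, ∃ F : Set Γ, g ∈ G → F.Finite ∧ ∀ γ ∈ T g, ∃ κ ∈ K, κ * γ ∈ F := by
    intro g
    by_cases hg : g ∈ G
    · obtain ⟨F, hF⟩ := h g hg
      exact ⟨F, fun _ => hF⟩
    · exact ⟨∅, fun hh => absurd hh hg⟩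
  choose F hF using h'
  refine ⟨⋃ g ∈ G, F g, hG.biUnion fun g hg => (hF g hg).1, ?_⟩
  intro γ hγ
  simp only [mem_iUnion] at hγ
  obtain ⟨g, hg, hγ⟩ := hγ
  obtain ⟨κ, hκ, h2⟩ := (hF g hg).2 γ hγ
  refine ⟨κ, hκ, ?_⟩
  simp only [mem_iUnion]
  exact ⟨g, hg, h2⟩

end grp

variable {E : Type*} [NormedAddCommGroup E] [NormedSpace ℝ E] [FiniteDimensional ℝ E]
  {M : Type*} [TopologicalSpace M] [ChartedSpace E M] [IsManifold 𝓘(ℝ, E) ∞ M]
  {P : Type*} [TopologicalSpace P] [ChartedSpace E P] [IsManifold 𝓘(ℝ, E) ∞ P]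
  {Γ : Type*} [Group Γ] [MulAction Γ P] {q : P → M}

lemma exists_inj (hq : RegCover (E := E) q Γ) (z : P) :
    ∃ O : Set P, IsOpen O ∧ z ∈ O ∧ InjOn q O := by
  obtain ⟨Φ, hz, hΦ⟩ := hq.diffeo z
  refine ⟨Φ.source, Φ.open_source, hz, ?_⟩
  intro a ha b hb hab
  rw [hΦ ha, hΦ hb] at hab
  exact Φ.toPartialEquiv.injOn ha hb hab

/-- the deck group acts freely -/
lemma deck_free (hq : RegCover (E := E) q Γ) [T2Space P] [ConnectedSpace P] [FaithfulSMul Γ P]
    {γ : Γ} {x : P} (h : γ • x = x) : γ = 1 := by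
  have hc : Continuous (fun y : P => γ • y) := (hq.smooth γ).continuous
  have hcl : IsClosed {y : P | γ • y = y} := isClosed_eq hc continuous_id
  have hop : IsOpen {y : P | γ • y = y} := by
    rw [isOpen_iff_mem_nhds]
    intro y hy
    obtain ⟨O, hO, hyO, hinj⟩ := exists_inj hq y
    have h1 : O ∈ 𝓝 y := hO.mem_nhds hyO
    have h2 : (fun y : P => γ • y) ⁻¹' O ∈ 𝓝 y := by
      apply hc.continuousAt.preimage_mem_nhds
      have hy' : γ • y = y := hy
      rw [hy']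
      exact h1
    filter_upwards [h1, h2] with z hz1 hz2
    exact hinj hz2 hz1 (hq.proj_smul γ z)
  have huniv : {y : P | γ • y = y} = univ := IsClopen.eq_univ ⟨hcl, hop⟩ ⟨x, h⟩
  apply FaithfulSMul.eq_of_smul_eq_smul (α := P)
  intro y
  have : y ∈ {y : P | γ • y = y} := by rw [huniv]; trivial
  rw [one_smul]
  exact this

/-- proper discontinuity -/
lemma deck_finite (hq : RegCover (E := E) q Γ) [T2Space P] [T2Space M] [ConnectedSpace P]
    [FaithfulSMul Γ P] {D : Set P} (hD : IsCompact D) :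
    {γ : Γ | ∃ x ∈ D, γ • x ∈ D}.Finite := by
  have hqc : Continuous q := hq.contMDiff.continuous
  have hloc : ∀ p : P × P, ∃ W : Set (P × P), IsOpen W ∧ p ∈ W ∧
      {γ : Γ | ∃ a : P × P, a ∈ W ∧ γ • a.1 = a.2}.Subsingleton := by
    rintro ⟨x, y⟩
    by_cases hxy : q x = q y
    · obtain ⟨γ₀, hγ₀⟩ := (hq.fibre x y).1 hxy
      obtain ⟨O, hO, hxO, hinj⟩ := exists_inj hq x
      have hc : Continuous (fun y : P => γ₀⁻¹ • y) := (hq.smooth γ₀⁻¹).continuous
      refine ⟨{a | a.1 ∈ O ∧ γ₀⁻¹ • a.2 ∈ O}, (hO.preimage continuous_fst).inter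
        (hO.preimage (hc.comp continuous_snd)), ⟨hxO, ?_⟩, ?_⟩
      · show γ₀⁻¹ • y ∈ O
        rw [← hγ₀, inv_smul_smul]
        exact hxO
      · have key : ∀ γ : Γ, (∃ a : P × P, a ∈ {a : P × P | a.1 ∈ O ∧ γ₀⁻¹ • a.2 ∈ O} ∧
            γ • a.1 = a.2) → γ = γ₀ := by
          rintro γ ⟨⟨a, b⟩, ⟨h1, h2⟩, h3⟩
          dsimp only at h1 h2 h3
          have h4 : γ₀⁻¹ • b = a := by
            apply hinj h2 h1
            rw [hq.proj_smul, ← h3, hq.proj_smul]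
          have h5 : (γ₀⁻¹ * γ) • a = a := by
            rw [mul_smul, h3, h4]
          have h6 := deck_free hq h5
          exact (inv_mul_eq_one.1 h6).symm
        intro γ hγ γ' hγ'
        rw [key γ hγ, key γ' hγ']
    · refine ⟨{a | q a.1 ≠ q a.2}, ?_, hxy, ?_⟩
      · exact (isClosed_eq (hqc.comp continuous_fst) (hqc.comp continuous_snd)).isOpen_compl
      · rintro γ ⟨⟨a, b⟩, h1, h2⟩
        exfalso
        apply h1
        dsimp only at h2 ⊢
        rw [← h2, hq.proj_smul]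
  choose W hW hpW hsub using hloc
  obtain ⟨t, ht⟩ := (hD.prod hD).elim_finite_subcover W hW (fun p _ => mem_iUnion.2 ⟨p, hpW p⟩)
  refine (t.finite_toSet.biUnion (t := fun p => {γ : Γ | ∃ a : P × P, a ∈ W p ∧ γ • a.1 = a.2})
    fun p _ => (hsub p).finite).subset ?_
  rintro γ ⟨x, hx, hγx⟩
  have h1 := ht (show (x, γ • x) ∈ D ×ˢ D from ⟨hx, hγx⟩)
  simp only [mem_iUnion] at h1
  obtain ⟨p, hp, h2⟩ := h1
  simp only [mem_iUnion]
  exact ⟨p, hp, (x, γ • x), h2, rfl⟩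

/-- the union of the translates of `D` by the elements of `S` -/
def tr (D : Set P) (S : Set Γ) : Set P := ⋃ γ : S, (fun x : P => (γ : Γ) • x) '' D

lemma mem_tr {D : Set P} {S : Set Γ} {x : P} : x ∈ tr D S ↔ ∃ γ ∈ S, ∃ d ∈ D, γ • d = x := by
  unfold tr
  simp only [mem_iUnion, mem_image, Subtype.exists, exists_prop]

lemma isClosed_tr (hq : RegCover (E := E) q Γ) [T2Space P] [T2Space M] [ConnectedSpace P]
    [FaithfulSMul Γ P] {D : Set P} (hD : IsCompact D) (S : Set Γ) : IsClosed (tr D S) := by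
  have : LocallyCompactSpace P := ChartedSpace.locallyCompactSpace E P
  have hlf : LocallyFinite (fun γ : S => (fun x : P => (γ : Γ) • x) '' D) := by
    intro x
    obtain ⟨N, hN, hxN⟩ := exists_compact_mem_nhds x
    refine ⟨N, hxN, ?_⟩
    have hfin := deck_finite hq (hD.union hN)
    refine Set.Finite.of_injOn (f := fun γ : S => (γ : Γ)) ?_ (Subtype.val_injective.injOn) hfin
    rintro γ ⟨y, ⟨d, hd, rfl⟩, hyN⟩
    exact ⟨d, Or.inl hd, Or.inr hyN⟩
  exact hlf.isClosed_iUnion fun γ => (hD.image (hq.smooth (γ : Γ)).continuous).isClosed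

lemma small_tr (hq : RegCover (E := E) q Γ) {D : Set P} (hD : IsCompact D) {K : Subgroup Γ}
    {S : Set Γ} (hS : FiniteUpTo K S) : SmallRel K (tr D S) := by
  obtain ⟨F, hF, h⟩ := hS
  refine ⟨⋃ γ ∈ F, (fun x : P => γ • x) '' D, hF.isCompact_biUnion fun γ _ =>
    hD.image (hq.smooth γ).continuous, ?_⟩
  intro x hx
  obtain ⟨γ, hγ, d, hd, rfl⟩ := mem_tr.1 hx
  obtain ⟨κ, hκ, h1⟩ := h γ hγ
  refine ⟨κ, hκ, ?_⟩
  simp only [mem_iUnion]
  exact ⟨κ * γ, h1, d, hd, mul_smul κ γ d⟩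

lemma finite_of_small_tr (hq : RegCover (E := E) q Γ) [T2Space P] [T2Space M] [ConnectedSpace P]
    [FaithfulSMul Γ P] {D : Set P} (hD : IsCompact D) (hDne : D.Nonempty) {K : Subgroup Γ}
    {S : Set Γ} (hS : SmallRel K (tr D S)) : FiniteUpTo K S := by
  obtain ⟨S₀, hS₀, h⟩ := hS
  obtain ⟨d, hd⟩ := hDne
  refine ⟨_, deck_finite hq (hD.union hS₀), fun γ hγ => ?_⟩
  obtain ⟨κ, hκ, h1⟩ := h (γ • d) (mem_tr.2 ⟨γ, hγ, d, hd, rfl⟩)
  refine ⟨κ, hκ, d, Or.inl hd, Or.inr ?_⟩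
  rw [mul_smul]
  exact h1

lemma SmallRel.mono {K : Subgroup Γ} {S S' : Set P} (h : SmallRel K S') (hs : S ⊆ S') :
    SmallRel K S := by
  obtain ⟨S₀, hS₀, hC⟩ := h
  exact ⟨S₀, hS₀, fun x hx => hC x (hs hx)⟩

/-- **Two-ended pairs.** -/
theorem exists_two_ends (hq : RegCover (E := E) q Γ) [T2Space P] [T2Space M] [CompactSpace M]
    [ConnectedSpace P] [FaithfulSMul Γ P] {K : Subgroup Γ} (hK : TwoEndedPair K) :
    ∃ C U V : Set P, Rel.TwoEnds (SmallRel K) C U V := by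
  obtain ⟨S, hS1, hS2, hS3⟩ := hK
  obtain ⟨D, hD, hcov⟩ := hq.exists_domain
  have hDne : D.Nonempty := by
    obtain ⟨x⟩ := (inferInstance : Nonempty P)
    obtain ⟨γ, hγ⟩ := hcov x
    exact ⟨_, hγ⟩
  have hall : ∀ x : P, x ∈ tr D S ∨ x ∈ tr D Sᶜ := by
    intro x
    obtain ⟨γ, hγ⟩ := hcov x
    by_cases h : γ⁻¹ ∈ S
    · exact Or.inl (mem_tr.2 ⟨γ⁻¹, h, _, hγ, inv_smul_smul γ x⟩)
    · exact Or.inr (mem_tr.2 ⟨γ⁻¹, h, _, hγ, inv_smul_smul γ x⟩)
  have hsmall : SmallRel K (tr D S ∩ tr D Sᶜ) := by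
    have h1 := small_tr hq hD (FiniteUpTo.biUnion (K := K) (deck_finite hq hD)
      (T := fun g => {γ | γ ∈ S ∧ γ * g ∉ S}) fun g _ => hS3 g)
    refine SmallRel.mono h1 ?_
    rintro x ⟨hx1, hx2⟩
    obtain ⟨γ, hγ, d, hd, hγd⟩ := mem_tr.1 hx1
    obtain ⟨δ, hδ, d', hd', hδd⟩ := mem_tr.1 hx2
    refine mem_tr.2 ⟨γ, ?_, d, hd, hγd⟩
    simp only [mem_iUnion]
    refine ⟨γ⁻¹ * δ, ⟨d', hd', ?_⟩, hγ, ?_⟩
    · rw [mul_smul, hδd, ← hγd, inv_smul_smul]
      exact hd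
    · rw [mul_inv_cancel_left]
      exact hδ
  refine ⟨tr D S ∩ tr D Sᶜ, (tr D Sᶜ)ᶜ, (tr D S)ᶜ, hsmall, (isClosed_tr hq hD _).isOpen_compl,
    (isClosed_tr hq hD _).isOpen_compl, ?_, ?_, ?_, ?_⟩
  · rw [Set.disjoint_left]
    intro x h1 h2
    rcases hall x with h | h
    · exact h2 h
    · exact h1 h
  · rw [← compl_inter, inter_comm]
  · intro T hT hsub
    apply hS1
    refine finite_of_small_tr hq hD hDne (SmallRel.mono (SmallRel.union hT hsmall) ?_)
    intro x hx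
    by_cases h : x ∈ tr D Sᶜ
    · exact Or.inr ⟨hx, h⟩
    · exact Or.inl (hsub h)
  · intro T hT hsub
    apply hS2
    refine finite_of_small_tr hq hD hDne (SmallRel.mono (SmallRel.union hT hsmall) ?_)
    intro x hx
    by_cases h : x ∈ tr D S
    · exact Or.inr ⟨h, hx⟩
    · exact Or.inl (hsub h)

end Pool.Agent.N490.WE
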