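import Mathlib

/-! A continuous flow along which a function increases from `-∞` to `∞` splits off a line. -/

open scoped Topology
open Set Filter

noncomputable section

namespace Pool.Agent.N490.WE

/-- A continuous flow along which `f` increases strictly from `-∞` to `∞`. -/
structure UpFlow {X : Type*} [TopologicalSpace X] (f : X → ℝ) where
  Fl : X → ℝ → X
  zero : ∀ x, Fl x 0 = x
  add : ∀ x s t, Fl x (s + t) = Fl (Fl x s) t
  cont : Continuous fun p : X × ℝ => Fl p.1 p.2
  contf : Continuous f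
  mono : ∀ x, StrictMono (fun t => f (Fl x t))
  up : ∀ x, ∃ t, 0 < f (Fl x t)
  down : ∀ x, ∃ t, f (Fl x t) < 0

namespace UpFlow

variable {X : Type*} [TopologicalSpace X] {f : X → ℝ} (F : UpFlow f)

lemma contx (t : ℝ) : Continuous (fun x => F.Fl x t) :=
  F.cont.comp (continuous_id.prodMk continuous_const)

lemma contt (x : X) : Continuous (F.Fl x) :=
  F.cont.comp (continuous_const.prodMk continuous_id)

lemma exists_time (x : X) : ∃ t, f (F.Fl x t) = 0 := by
  obtain ⟨a, ha⟩ := F.up x
  obtain ⟨b, hb⟩ := F.down x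
  have hc : Continuous fun t => f (F.Fl x t) := F.contf.comp (F.contt x)
  have := mem_range_of_exists_le_of_exists_ge hc ⟨b, hb.le⟩ ⟨a, ha.le⟩
  obtain ⟨t, ht⟩ := this
  exact ⟨t, ht⟩

/-- the time at which the flow line crosses the zero set -/
def tau (x : X) : ℝ := Classical.choose (F.exists_time x)

lemma f_tau (x : X) : f (F.Fl x (F.tau x)) = 0 := Classical.choose_spec (F.exists_time x)

lemma tau_eq {x : X} {t : ℝ} (h : f (F.Fl x t) = 0) : F.tau x = t :=
  (F.mono x).injective (by show f (F.Fl x (F.tau x)) = f (F.Fl x t); rw [F.f_tau, h])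

lemma tau_of_mem {x : X} (h : f x = 0) : F.tau x = 0 := F.tau_eq (by rw [F.zero]; exact h)

lemma tau_Fl (x : X) (s : ℝ) : F.tau (F.Fl x s) = F.tau x - s := by
  apply F.tau_eq
  rw [← F.add]
  rw [add_sub_cancel]
  exact F.f_tau x

lemma continuous_tau : Continuous F.tau := by
  rw [Metric.continuous_iff']
  intro x ε hε
  have h1 : f (F.Fl x (F.tau x - ε)) < 0 := by
    rw [← F.f_tau x]
    exact F.mono x (by linarith)
  have h2 : 0 < f (F.Fl x (F.tau x + ε)) := by
    conv_lhs => rw [← F.f_tau x]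
    exact F.mono x (by linarith)
  have e1 : ∀ᶠ y in 𝓝 x, f (F.Fl y (F.tau x - ε)) < 0 :=
    (F.contf.comp (F.contx _)).continuousAt.eventually_lt_const h1
  have e2 : ∀ᶠ y in 𝓝 x, 0 < f (F.Fl y (F.tau x + ε)) :=
    (F.contf.comp (F.contx _)).continuousAt.eventually_const_lt h2
  filter_upwards [e1, e2] with y h3 h4
  rw [Real.dist_eq, abs_lt]
  constructor
  · by_contra hcon
    push Not at hcon
    have : f (F.Fl y (F.tau y)) ≤ f (F.Fl y (F.tau x - ε)) := (F.mono y).monotone (by linarith)
    rw [F.f_tau] at this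
    linarith
  · by_contra hcon
    push Not at hcon
    have : f (F.Fl y (F.tau x + ε)) ≤ f (F.Fl y (F.tau y)) := (F.mono y).monotone (by linarith)
    rw [F.f_tau] at this
    linarith

/-- the retraction to the zero set -/
def ret (x : X) : {x : X | f x = 0} := ⟨F.Fl x (F.tau x), F.f_tau x⟩

lemma continuous_ret : Continuous F.ret :=
  Continuous.subtype_mk (F.cont.comp (continuous_id.prodMk F.continuous_tau)) _

/-- **Splitting off a line.** -/
def homeo : X ≃ₜ {x : X | f x = 0} × ℝ where
  toFun := fun x => (F.ret x, - F.tau x)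
  invFun := fun p => F.Fl p.1 p.2
  left_inv := by
    intro x
    show F.Fl (F.Fl x (F.tau x)) (- F.tau x) = x
    rw [← F.add, add_neg_cancel, F.zero]
  right_inv := by
    rintro ⟨⟨z, hz⟩, s⟩
    have h1 : F.tau (F.Fl z s) = - s := by
      rw [F.tau_Fl, F.tau_of_mem hz, zero_sub]
    show (F.ret (F.Fl z s), - F.tau (F.Fl z s)) = _
    refine Prod.ext (Subtype.ext ?_) ?_
    · show F.Fl (F.Fl z s) (F.tau (F.Fl z s)) = z
      rw [h1, ← F.add, add_neg_cancel, F.zero]
    · show - F.tau (F.Fl z s) = s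
      rw [h1, neg_neg]
  continuous_toFun := F.continuous_ret.prodMk F.continuous_tau.neg
  continuous_invFun := F.cont.comp
    ((continuous_subtype_val.comp continuous_fst).prodMk continuous_snd)

include F in
lemma isConnected [ConnectedSpace X] : IsConnected {x : X | f x = 0} := by
  have h1 : IsConnected (range fun x : X => (F.ret x : X)) :=
    isConnected_range (continuous_subtype_val.comp F.continuous_ret)
  have h2 : (range fun x : X => (F.ret x : X)) = {x : X | f x = 0} := by
    ext z
    constructor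
    · rintro ⟨x, rfl⟩
      exact (F.ret x).2
    · intro hz
      refine ⟨z, ?_⟩
      show F.Fl z (F.tau z) = z
      rw [F.tau_of_mem hz, F.zero]
  rwa [h2] at h1

end UpFlow

/-! ### Quotients -/

section quot

variable {Γ : Type*} [Group Γ] {P : Type*} [TopologicalSpace P] [MulAction Γ P]
  (K : Subgroup Γ)

/-- the quotient by a subgroup -/
abbrev Qt (P : Type*) [TopologicalSpace P] {Γ : Type*} [Group Γ] [MulAction Γ P]
    (K : Subgroup Γ) : Type _ := MulAction.orbitRel.Quotient K P

/-- the quotient map -/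
def pr (x : P) : Qt P K := Quotient.mk'' x

lemma pr_eq {x y : P} : pr K x = pr K y ↔ ∃ κ ∈ K, κ • y = x := by
  unfold pr
  rw [Quotient.eq'']
  show x ∈ MulAction.orbit K y ↔ _
  constructor
  · rintro ⟨⟨κ, hκ⟩, h⟩
    exact ⟨κ, hκ, h⟩
  · rintro ⟨κ, hκ, h⟩
    exact ⟨⟨κ, hκ⟩, h⟩

lemma continuous_pr : Continuous (pr (P := P) K) := continuous_quotient_mk'

lemma surjective_pr : Function.Surjective (pr (P := P) K) := Quotient.mk''_surjective

lemma isOpenMap_pr (hc : ∀ γ : Γ, Continuous fun x : P => γ • x) : IsOpenMap (pr (P := P) K) := by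
  have : ContinuousConstSMul K P := ⟨fun κ => hc κ⟩
  exact isOpenMap_quotient_mk'_mul

/-- a flow commuting with `K` descends -/
def quotFlow (hc : ∀ γ : Γ, Continuous fun x : P => γ • x) {f : P → ℝ} (F : UpFlow f)
    (hf : ∀ κ ∈ K, ∀ x, f (κ • x) = f x) (hF : ∀ κ ∈ K, ∀ x t, F.Fl (κ • x) t = κ • F.Fl x t) :
    UpFlow (X := Qt P K) (fun z => Quotient.liftOn' z f (by
      rintro a b ⟨⟨κ, hκ⟩, rfl⟩
      exact hf κ hκ b)) where
  Fl := fun z t => Quotient.liftOn' z (fun x => pr K (F.Fl x t)) (by
    rintro a b ⟨⟨κ, hκ⟩, rfl⟩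
    rw [pr_eq]
    exact ⟨κ, hκ, (hF κ hκ b t).symm⟩)
  zero := by
    intro z
    obtain ⟨x, rfl⟩ := surjective_pr K z
    show pr K (F.Fl x 0) = pr K x
    rw [F.zero]
  add := by
    intro z s t
    obtain ⟨x, rfl⟩ := surjective_pr K z
    show pr K (F.Fl x (s + t)) = pr K (F.Fl (F.Fl x s) t)
    rw [F.add]
  cont := by
    have hq : IsOpenQuotientMap (Prod.map (pr (P := P) K) (id : ℝ → ℝ)) :=
      ⟨(surjective_pr K).prodMap Function.surjective_id,
        (continuous_pr K).prodMap continuous_id,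
        (isOpenMap_pr K hc).prodMap IsOpenMap.id⟩
    rw [hq.isQuotientMap.continuous_iff]
    exact (continuous_pr K).comp F.cont
  contf := by
    refine Continuous.quotient_liftOn' F.contf _
  mono := by
    intro z
    obtain ⟨x, rfl⟩ := surjective_pr K z
    exact F.mono x
  up := by
    intro z
    obtain ⟨x, rfl⟩ := surjective_pr K z
    exact F.up x
  down := by
    intro z
    obtain ⟨x, rfl⟩ := surjective_pr K z
    exact F.down x

end quot

end Pool.Agent.N490.WE
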