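import Mathlib
import Pool.Agent.N490.WE.Prod
import Pool.Agent.N490.WE.Sub

/-! The normalised gradient flow of an integral contact Hamiltonian without critical points splits
off a line. -/

open scoped Topology ContDiff Manifold
open Set Metric Bundle Pool.Agent.Helper186

noncomputable section

namespace Pool.Agent.N490.WE

open Pool.Agent.H826R2.Wein

set_option linter.unusedSectionVars false

universe u

variable {E : Type u} [NormedAddCommGroup E] [NormedSpace ℝ E] [FiniteDimensional ℝ E]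
  {P : Type*} [TopologicalSpace P] [ChartedSpace E P] [IsManifold 𝓘(ℝ, E) ∞ P]
  {β : (x : P) → TangentSpace 𝓘(ℝ, E) x →L[ℝ] ℝ} {m : ℕ}
  {n : ℕ} {ι : Imm (E := E) P n} {Γ : Type*} [Group Γ] [MulAction Γ P]

theorem exists_upFlow (𝒟 : Deck ι Γ) [T2Space P] [SigmaCompactSpace P] {f : P → ℝ}
    (hf : ContMDiff 𝓘(ℝ, E) 𝓘(ℝ, ℝ) ∞ f)
    (hps : ∀ c : ℝ, ∃ δ > (0:ℝ), ∀ x, |f x| ≤ c → δ ≤ ι.G f x) :
    ∃ F : UpFlow f, ∀ γ : Γ, (∀ x, f (γ • x) = f x) → ∀ x t, F.Fl (γ • x) t = γ • F.Fl x t := by
  have : IsManifold 𝓘(ℝ, E) 1 P := IsManifold.of_le (n := ∞) (by simp)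
  choose Fl h0 hFl using fun x => 𝒟.complete hf x
  have hcont : Continuous fun p : P × ℝ => Fl p.1 p.2 :=
    (contMDiff_flow (ι.smooth_V hf) h0 hFl).continuous
  have hder : ∀ x t, HasDerivAt (fun s => f (Fl x s))
      (ι.G f (Fl x t) / (1 + ι.G f (Fl x t))) t := by
    intro x t
    have := hasDerivAt_along (W := ι.V f) (hFl x t) hf
    rwa [ι.dForm_V_self] at this
  have hG : ∀ x, 0 < ι.G f x := by
    intro x
    obtain ⟨δ, hδ, h⟩ := hps |f x|
    exact hδ.trans_le (h x le_rfl)
  have hmono : ∀ x, StrictMono (fun t => f (Fl x t)) := by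
    intro x
    apply strictMono_of_deriv_pos
    intro t
    rw [(hder x t).deriv]
    have := hG (Fl x t)
    positivity
  -- uniform growth
  have hgrow : ∀ (x : P) (c δ s t : ℝ), 0 < δ → (∀ y, |f y| ≤ c → δ ≤ ι.G f y) → s < t →
      (∀ r ∈ Icc s t, |f (Fl x r)| ≤ c) → δ / (1 + δ) * (t - s) ≤ f (Fl x t) - f (Fl x s) := by
    intro x c δ s t hδ h hst hr
    obtain ⟨r, hr1, hr2⟩ := exists_hasDerivAt_eq_slope (fun t => f (Fl x t)) _ hst
      (fun t _ => (hder x t).continuousAt.continuousWithinAt) (fun t _ => hder x t)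
    have h4 := h _ (hr r ⟨hr1.1.le, hr1.2.le⟩)
    have h5 : δ / (1 + δ) ≤ ι.G f (Fl x r) / (1 + ι.G f (Fl x r)) := by
      rw [div_le_div_iff₀ (by positivity) (by linarith)]
      nlinarith
    rw [hr2, le_div_iff₀ (by linarith)] at h5
    exact h5
  refine ⟨⟨Fl, h0, fun x s t => flow_add (ι.smooth_V hf) h0 hFl x s t, hcont, hf.continuous,
    hmono, ?_, ?_⟩, ?_⟩
  · intro x
    by_contra hcon
    push Not at hcon
    obtain ⟨δ, hδ, h⟩ := hps |f x|
    have hr : 0 < δ / (1 + δ) := by positivity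
    obtain ⟨N, hN⟩ := exists_nat_gt (|f x| / (δ / (1 + δ)))
    rw [div_lt_iff₀ hr] at hN
    have hN0 : (0:ℝ) < N := by
      have := abs_nonneg (f x)
      by_contra hcon2
      push Not at hcon2
      nlinarith
    have h1 := hgrow x |f x| δ 0 N hδ h hN0 (by
      intro r hr
      have h2 := hcon r
      have h3 : f (Fl x 0) ≤ f (Fl x r) := (hmono x).monotone hr.1
      rw [h0] at h3
      rw [abs_le]
      have h4 := neg_abs_le (f x)
      have h5 := abs_nonneg (f x)
      constructor <;> linarith)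
    rw [h0, sub_zero] at h1
    have h2 := hcon N
    have h4 := neg_abs_le (f x)
    linarith
  · intro x
    by_contra hcon
    push Not at hcon
    obtain ⟨δ, hδ, h⟩ := hps |f x|
    have hr : 0 < δ / (1 + δ) := by positivity
    obtain ⟨N, hN⟩ := exists_nat_gt (|f x| / (δ / (1 + δ)))
    rw [div_lt_iff₀ hr] at hN
    have hN0 : (0:ℝ) < N := by
      have := abs_nonneg (f x)
      by_contra hcon2
      push Not at hcon2
      nlinarith
    have h1 := hgrow x |f x| δ (-N) 0 hδ h (by linarith) (by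
      intro r hr
      have h2 := hcon r
      have h3 : f (Fl x r) ≤ f (Fl x 0) := (hmono x).monotone hr.2
      rw [h0] at h3
      rw [abs_le]
      have h4 := le_abs_self (f x)
      have h5 := abs_nonneg (f x)
      constructor <;> linarith)
    rw [h0, zero_sub, neg_neg] at h1
    have h2 := hcon (-N)
    have h4 := le_abs_self (f x)
    linarith
  · intro γ hγ x t
    exact 𝒟.flow_smul hf h0 hFl γ hγ x t

/-- the quotient of a manifold by a group of smooth maps is locally compact; compact sets lift -/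
lemma exists_lift_compact {K : Subgroup Γ} (hc : ∀ γ : Γ, Continuous fun x : P => γ • x)
    [LocallyCompactSpace P] {Z : Set (Qt P K)} (hZ : IsCompact Z) :
    SmallRel K (pr (P := P) K ⁻¹' Z) := by
  choose C hC hxC using fun x : P => exists_compact_mem_nhds x
  obtain ⟨t, ht⟩ := hZ.elim_finite_subcover (fun x : P => pr (P := P) K '' interior (C x))
    (fun x => isOpenMap_pr K hc _ isOpen_interior) (by
      intro y _
      obtain ⟨x, rfl⟩ := surjective_pr K y
      exact mem_iUnion.2 ⟨x, x, mem_interior_iff_mem_nhds.2 (hxC x), rfl⟩)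
  refine ⟨⋃ x ∈ t, C x, t.isCompact_biUnion fun x _ => hC x, fun x hx => ?_⟩
  have h1 := ht hx
  simp only [mem_iUnion] at h1
  obtain ⟨z, hz, y, hy, hyx⟩ := h1
  obtain ⟨κ, hκ, h2⟩ := (pr_eq K).1 hyx
  refine ⟨κ, hκ, ?_⟩
  rw [h2]
  simp only [mem_iUnion]
  exact ⟨z, hz, interior_subset hy⟩

variable (A : TAct β m)

/-- **Splitting off a line.** If no integral Hamiltonian has a critical point, the quotient by a
group preserving one of them is the product of a connected space and a line. -/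
theorem split_of_no_crit [T2Space P] [SigmaCompactSpace P] [ConnectedSpace P]
    (hc : IsContact β) (𝒟 : Deck ι Γ) {K : Subgroup Γ} {k : Fin m → ℤ}
    (hps : ∀ c : ℝ, ∃ δ > (0:ℝ), ∀ x, |A.H (TAct.rv k) x| ≤ c → δ ≤ ι.G (A.H (TAct.rv k)) x)
    (hK : ∀ κ ∈ K, ∀ x, A.H (TAct.rv k) (κ • x) = A.H (TAct.rv k) x) :
    ∃ Z : Set (Qt P K), IsClosed Z ∧ IsConnected Z ∧ Nonempty (Qt P K ≃ₜ Z × ℝ) ∧
      (IsCompact Z → Rel.TwoEnds (SmallRel K) {x | A.H (TAct.rv k) x = 0}
        {x | 0 < A.H (TAct.rv k) x} {x | A.H (TAct.rv k) x < 0}) := by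
  set f := A.H (TAct.rv k) with hf
  have hsm := A.smooth_H hc.smooth (TAct.rv k)
  obtain ⟨F, hF⟩ := exists_upFlow 𝒟 hsm hps
  have hcc : ∀ γ : Γ, Continuous fun x : P => γ • x := fun γ => (𝒟.smooth γ).continuous
  have hKF : ∀ κ ∈ K, ∀ x t, F.Fl (κ • x) t = κ • F.Fl x t := fun κ hκ => hF κ (hK κ hκ)
  set G := quotFlow K hcc F hK hKF with hG
  have : ConnectedSpace (Qt P K) := (surjective_pr (P := P) K).connectedSpace (continuous_pr K)
  refine ⟨_, isClosed_eq G.contf continuous_const, G.isConnected, ⟨G.homeo⟩, fun hZ => ?_⟩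
  have : LocallyCompactSpace P := ChartedSpace.locallyCompactSpace E P
  have hbd : ∀ S, SmallRel K S → ∃ b : ℝ, ∀ z ∈ S, |f z| ≤ b := by
    rintro S ⟨S₀, hS₀, hC⟩
    obtain ⟨b, hb⟩ := (hS₀.image hsm.continuous.abs).bddAbove
    refine ⟨b, fun z hz => ?_⟩
    obtain ⟨κ, hκ, hκz⟩ := hC z hz
    rw [← hK κ hκ z]
    exact hb (mem_image_of_mem _ hκz)
  obtain ⟨Fp⟩ := 𝒟.exists_push hsm hps
  have hne : Nonempty P := inferInstance
  obtain ⟨y⟩ := hne
  constructor
  · have h1 := exists_lift_compact hcc hZ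
    exact h1
  · exact isOpen_lt continuous_const hsm.continuous
  · exact isOpen_lt hsm.continuous continuous_const
  · rw [Set.disjoint_left]
    intro x h1 h2
    exact lt_asymm (show 0 < f x from h1) (show f x < 0 from h2)
  · ext x
    simp only [mem_union, Set.mem_ofPred_eq, mem_compl_iff]
    constructor
    · rintro (h | h)
      · exact h.ne'
      · exact h.ne
    · intro h
      exact (lt_or_gt_of_ne h).symm
  · intro S hS hsub
    obtain ⟨b, hb⟩ := hbd S hS
    obtain ⟨T, -, hT⟩ := Fp.push (max |f y| b)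
    have h1 := hT y (by
      have := neg_abs_le (f y)
      have := le_max_left |f y| b
      linarith)
    have h2 : 0 < f (Fp.Fl y T) := by
      have := abs_nonneg (f y)
      have := le_max_left |f y| b
      linarith
    have h3 := hb _ (hsub h2)
    have h4 := le_abs_self (f (Fp.Fl y T))
    have h5 := le_max_right |f y| b
    linarith
  · intro S hS hsub
    obtain ⟨b, hb⟩ := hbd S hS
    obtain ⟨T, -, hT⟩ := Fp.neg.push (max |f y| b)
    have h1 := hT y (by
      have := le_abs_self (f y)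
      have := le_max_left |f y| b
      show - max |f y| b ≤ - f y
      linarith)
    have h1' : max |f y| b < - f (Fp.neg.Fl y T) := h1
    have h2 : f (Fp.neg.Fl y T) < 0 := by
      have := abs_nonneg (f y)
      have := le_max_left |f y| b
      linarith
    have h3 := hb _ (hsub h2)
    have h4 := neg_abs_le (f (Fp.neg.Fl y T))
    have h5 := le_max_right |f y| b
    linarith

end Pool.Agent.N490.WE
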