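import Mathlib
import Pool.Agent.H826R2.Wein.Bridge
import Pool.Agent.H826R2.Wein.Main4
import Pool.Agent.N490.WE.Flow
import Pool.Agent.N490.WE.Ends

/-! Closed Reeb orbits for contact forms with a local torus symmetry of any rank and arbitrary
monodromy: topology of the covering spaces on which a circle or the whole torus acts. -/

open scoped Topology ContDiff Manifold
open Set Pool.Agent.Helper186

noncomputable section

namespace Pool.Agent.N490.WE

open Pool.Agent.H826R2.WStmt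

set_option linter.unusedSectionVars false

universe u

section defs

/-- The quotient space of `P` by the subgroup `K`. -/
abbrev QuotientBy (P : Type*) [TopologicalSpace P] {Γ : Type*} [Group Γ] [MulAction Γ P]
    (K : Subgroup Γ) : Type _ := MulAction.orbitRel.Quotient K P

/-- The space `X` splits off a line: it is homeomorphic to `Z × ℝ` for a connected space `Z`. -/
def SplitsLine (X : Type*) [TopologicalSpace X] : Prop :=
  ∃ Z : Set X, IsClosed Z ∧ IsConnected Z ∧ Nonempty (X ≃ₜ Z × ℝ)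

/-- The space `X` splits off a line with noncompact complement: it is homeomorphic to `Z × ℝ` for a
connected noncompact space `Z`. -/
def SplitsLineOpen (X : Type*) [TopologicalSpace X] : Prop :=
  ∃ Z : Set X, IsClosed Z ∧ IsConnected Z ∧ ¬ IsCompact Z ∧ Nonempty (X ≃ₜ Z × ℝ)

variable {P : Type*} {Γ : Type*} [Group Γ] [MulAction Γ P] {m : ℕ}

/-- The subgroup `K` commutes with the circle `t ↦ t k` of the torus, `k` an integral vector. -/
def CommutesWithCircle (K : Subgroup Γ) (act : (Fin m → ℝ) → P → P) (k : Fin m → ℤ) : Prop :=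
  ∀ γ ∈ K, ∀ (t : ℝ) (x : P),
    γ • act (fun i => t * (k i : ℝ)) x = act (fun i => t * (k i : ℝ)) (γ • x)

/-- The subgroup `K` commutes with the torus action. -/
def CommutesWithTorus (K : Subgroup Γ) (act : (Fin m → ℝ) → P → P) : Prop :=
  ∀ γ ∈ K, ∀ (θ : Fin m → ℝ) (x : P), γ • act θ x = act θ (γ • x)

end defs

variable {E : Type u} [NormedAddCommGroup E] [NormedSpace ℝ E] [FiniteDimensional ℝ E]
  {M : Type*} [TopologicalSpace M] [ChartedSpace E M] [IsManifold 𝓘(ℝ, E) ∞ M]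
  {P : Type*} [TopologicalSpace P] [ChartedSpace E P] [IsManifold 𝓘(ℝ, E) ∞ P]

theorem exists_periodic_split [T2Space M] [CompactSpace M]
    (α : M → Cov E) (hα : IsContact α) (R : M → E) (hR : IsReeb α R)
    [T2Space P] [SigmaCompactSpace P] [ConnectedSpace P]
    {Γ : Type*} [Group Γ] [MulAction Γ P] (q : P → M) (hq : IsQuotientMap E q Γ)
    {m : ℕ} (hm : 0 < m) (A : TorusAction (pull (E := E) q α) m)
    (Γ₀ : Subgroup Γ) (hΓ₀ : Γ₀.FiniteIndex) (hA : Normalises Γ₀ A.act)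
    (K : Subgroup Γ) (hK : K ≤ Γ₀)
    (hE : (∃ k : Fin m → ℤ, k ≠ 0 ∧ CommutesWithCircle K A.act k ∧ ¬ SplitsLine (QuotientBy P K)) ∨
      (CommutesWithTorus K A.act ∧ ¬ SplitsLineOpen (QuotientBy P K)) ∨
      (CommutesWithTorus K A.act ∧ FaithfulSMul Γ P ∧ TwoEndedPair K)) :
    ∃ (c : ℝ → M) (T : ℝ), IsPeriodicOrbit R c T := by
  have hq' : H826R2.Wein.RegCover (E := E) q Γ := hq.toWein
  obtain ⟨n, ι, ⟨𝒟⟩⟩ := hq'.exists_deck
  set 𝒟₀ := 𝒟.restrict Γ₀ hΓ₀ with h𝒟₀
  set B := A.toWein with hB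
  have hN₀ : B.Norm Γ₀ := ⟨fun γ x u => hq'.strict (toForm α) γ x u, hA⟩
  have hcP := hq'.isContact_pull hα.toWein
  have hRP := hq'.isReeb_lift hα.toWein hR.toWein
  have : LocallyPathConnectedSpace P := ChartedSpace.locallyPathConnectedSpace E P
  have : PathConnectedSpace P := pathConnectedSpace_iff_connectedSpace.2 inferInstance
  -- it suffices to find a critical point
  have main : (∃ k : Fin m → ℤ, k ≠ 0 ∧ ∃ x, dForm 𝓘(ℝ, E) (B.H (H826R2.Wein.TAct.rv k)) x = 0) →
      ∃ (c : ℝ → M) (T : ℝ), IsPeriodicOrbit R c T := by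
    rintro ⟨k, hk, x, hx⟩
    obtain ⟨c, T, h1, h2, h3⟩ := hq'.closed_proj (B.closed_of_crit hcP hRP hk hx)
    exact ⟨c, T, h1, h2, h3⟩
  apply main
  by_contra hno'
  have hno := hno'
  push Not at hno
  have hps := fun k hk c => B.palaisSmale hcP hRP 𝒟₀ hN₀ hno k hk c
  -- invariance of the Hamiltonians
  have hinv : ∀ k : Fin m → ℤ, CommutesWithCircle K A.act k → ∀ κ ∈ K, ∀ x,
      B.H (H826R2.Wein.TAct.rv k) (κ • x) = B.H (H826R2.Wein.TAct.rv k) x := by
    intro k hk κ hκ x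
    refine B.H_push (𝒟.smooth κ) ?_ (fun x u => hq'.strict (toForm α) κ x u) x
    intro t y
    exact hk κ hκ t y
  have hcirc : CommutesWithTorus K A.act → ∀ k : Fin m → ℤ, CommutesWithCircle K A.act k :=
    fun h k γ hγ t x => h γ hγ _ x
  -- two ends are impossible
  have hends : CommutesWithTorus K A.act → ∀ C U V : Set P,
      ¬ H826R2.Wein.Rel.TwoEnds (H826R2.Wein.SmallRel K) C U V := by
    intro hT C U V hE
    have hK₀ : K.subgroupOf Γ₀ ≤ B.ker Γ₀ := by
      intro κ hκ k x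
      exact hinv k (hcirc hT k) κ hκ x
    have hsm : H826R2.Wein.SmallRel (P := P) (K.subgroupOf Γ₀) = H826R2.Wein.SmallRel K := by
      funext S
      apply propext
      constructor
      · rintro ⟨S₀, hS₀, h⟩
        refine ⟨S₀, hS₀, fun x hx => ?_⟩
        obtain ⟨κ, hκ, h1⟩ := h x hx
        exact ⟨κ, hκ, h1⟩
      · rintro ⟨S₀, hS₀, h⟩
        refine ⟨S₀, hS₀, fun x hx => ?_⟩
        obtain ⟨κ, hκ, h1⟩ := h x hx
        exact ⟨⟨κ, hK hκ⟩, hκ, h1⟩
    rw [← hsm] at hE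
    exact hno' (exists_crit_two_ends_sub B hcP hRP 𝒟₀ hN₀ hK₀ hE hm)
  rcases hE with ⟨k, hk, hKk, hsp⟩ | ⟨hT, hsp⟩ | ⟨hT, hf, hpair⟩
  · obtain ⟨Z, h1, h2, h3, -⟩ := split_of_no_crit B hcP 𝒟 (K := K) (k := k) (hps k hk)
      (hinv k hKk)
    exact hsp ⟨Z, h1, h2, h3⟩
  · set k : Fin m → ℤ := fun _ => 1 with hk
    have hk0 : k ≠ 0 := by
      intro h
      have := congrFun h ⟨0, hm⟩
      simp [hk] at this
    obtain ⟨Z, h1, h2, h3, h4⟩ := split_of_no_crit B hcP 𝒟 (K := K) (k := k) (hps k hk0)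
      (hinv k (hcirc hT k))
    exact hsp ⟨Z, h1, h2, fun hZ => hends hT _ _ _ (h4 hZ), h3⟩
  · obtain ⟨C, U, V, h⟩ := exists_two_ends hq' hpair
    exact hends hT _ _ _ h

end Pool.Agent.N490.WE
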